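import Pool.Agent.FibShift.Defs
import Pool.Agent.FibShift.Count

/-!
The state complexity `S(c)` of the shift `(t(i+c))` of the Fibonacci-Thue-Morse sequence is not
`Θ(c)`: `liminf S(c)/c = 0`.
-/

namespace Pool.Agent.Results.MP_0deb22_lc.ShiftLiminf

open Pool.Agent.FibShift Real Filter

lemma complexity_bound (q : ℕ) :
    ((stateComplexity (fun i => ftm (i + Nat.fib (14 * q))) : ℕ∞) : ENNReal) ≤
      ENNReal.ofReal (8 * ((goldenRatio ^ 14 - 1) ^ q * goldenRatio)) := by
  have h1 := complexity_le (14 * q)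
  have h2 := red_card q
  have h3 : ((stateComplexity (fun i => ftm (i + Nat.fib (14 * q))) : ℕ∞) : ENNReal) ≤
      (((8 * (red (14 * q)).card : ℕ) : ℕ∞) : ENNReal) := ENat.toENNReal_le.2 h1
  refine h3.trans ?_
  have h4 : (((8 * (red (14 * q)).card : ℕ) : ℕ∞) : ENNReal) =
      ENNReal.ofReal ((8 * (red (14 * q)).card : ℕ) : ℝ) := by
    rw [ENNReal.ofReal_natCast]; rfl
  rw [h4]
  apply ENNReal.ofReal_le_ofReal
  push_cast
  linarith

/-- `liminf_{c → ∞} S(c) / c = 0`, where `S(c)` is the least number of states of a Fibonacci-DFAO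
generating `(t(i+c))_{i ≥ 0}`, `t` the Fibonacci-Thue-Morse sequence. -/
theorem result :
    Filter.liminf (fun c : ℕ =>
      ((stateComplexity (fun i => ftm (i + c)) : ℕ∞) : ENNReal) / (c : ENNReal))
      Filter.atTop = 0 := by
  have hφ1 : 1 < goldenRatio := one_lt_goldenRatio
  have hφ0 : 0 < goldenRatio := goldenRatio_pos
  have h14 : 1 < goldenRatio ^ 14 := one_lt_pow₀ hφ1 (by norm_num)
  -- the geometric rate
  set r : ℝ := (goldenRatio ^ 14 - 1) / goldenRatio ^ 14 with hr
  have hr0 : 0 ≤ r := div_nonneg (by linarith) (by positivity)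
  have hr1 : r < 1 := by
    rw [hr, div_lt_one (by positivity)]; linarith
  have htend : Tendsto (fun q : ℕ => 8 * goldenRatio ^ 3 * r ^ q) atTop (nhds 0) := by
    have := (tendsto_pow_atTop_nhds_zero_of_lt_one hr0 hr1).const_mul (8 * goldenRatio ^ 3)
    simpa using this
  refine le_antisymm ?_ zero_le
  refine le_of_forall_pos_le_add ?_
  intro ε hε
  rw [zero_add]
  by_cases hεt : ε = ⊤
  · rw [hεt]; exact le_top
  have hεr : 0 < ε.toReal := ENNReal.toReal_pos hε.ne' hεt
  apply Filter.liminf_le_of_frequently_le'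
  rw [Filter.frequently_atTop]
  intro a
  have hev := (htend.eventually (gt_mem_nhds hεr)).and (Filter.eventually_ge_atTop (a + 1))
  obtain ⟨q, hq1, hq2⟩ := hev.exists
  refine ⟨Nat.fib (14 * q), ?_, ?_⟩
  · have h1 : 14 * q ≤ Nat.fib (14 * q) := Nat.le_fib_self (by omega)
    omega
  · have hfib : goldenRatio ^ (14 * q) ≤ goldenRatio ^ 2 * (Nat.fib (14 * q) : ℝ) := by
      have h := fib_ge (14 * q - 2)
      have e : 14 * q - 2 + 2 = 14 * q := by omega
      rw [e] at h
      have e2 : goldenRatio ^ (14 * q) = goldenRatio ^ 2 * goldenRatio ^ (14 * q - 2) := by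
        rw [← pow_add]; congr 1; omega
      rw [e2]
      exact mul_le_mul_of_nonneg_left h (by positivity)
    have hfpos : (0 : ℝ) < (Nat.fib (14 * q) : ℝ) := by
      exact_mod_cast Nat.fib_pos.2 (by omega)
    rw [ENNReal.div_le_iff_le_mul]
    · refine (complexity_bound q).trans ?_
      have h5 : ε * ((Nat.fib (14 * q) : ℕ) : ENNReal) =
          ENNReal.ofReal (ε.toReal * (Nat.fib (14 * q) : ℝ)) := by
        rw [ENNReal.ofReal_mul hεr.le, ENNReal.ofReal_toReal hεt, ENNReal.ofReal_natCast]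
      rw [h5]
      apply ENNReal.ofReal_le_ofReal
      have h6 : (goldenRatio ^ 14 - 1) ^ q = r ^ q * goldenRatio ^ (14 * q) := by
        have h7 : (goldenRatio ^ 14) ^ q ≠ 0 := by positivity
        rw [hr, pow_mul goldenRatio 14 q]
        generalize goldenRatio ^ 14 = y at h7 ⊢
        rw [div_pow, div_mul_cancel₀ _ h7]
      rw [h6]
      calc 8 * (r ^ q * goldenRatio ^ (14 * q) * goldenRatio)
          ≤ 8 * (r ^ q * (goldenRatio ^ 2 * (Nat.fib (14 * q) : ℝ)) * goldenRatio) := by
            have := pow_nonneg hr0 q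
            gcongr
        _ = (8 * goldenRatio ^ 3 * r ^ q) * (Nat.fib (14 * q) : ℝ) := by ring
        _ ≤ ε.toReal * (Nat.fib (14 * q) : ℝ) := by
            apply mul_le_mul_of_nonneg_right hq1.le hfpos.le
    · left
      have : Nat.fib (14 * q) ≠ 0 := (Nat.fib_pos.2 (by omega)).ne'
      exact_mod_cast this
    · left
      exact ENNReal.natCast_ne_top _

end Pool.Agent.Results.MP_0deb22_lc.ShiftLiminf
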